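import Pool.Agent.H31.CF.Zeta
import Pool.Agent.H42.Hb.Ind

/-!
# Inductivity of Artin L-functions

For `K ≤ F ≤ L` and a representation `σ` of `Gal(L/F)` the Artin L-function of `σ` for `L/F` is the
Artin L-function for `L/K` of the representation induced from `σ`, and the Dedekind zeta function of
an intermediate field `E` is the Artin L-function of the representation of `Gal(L/K)` on the
functions on `Gal(L/K) / Gal(L/E)`.
-/

open NumberField IsDedekindDomain Module
open scoped Pointwise
open Pool.Agent.H7.Artin Pool.Agent.H24.HL Pool.Agent.H72.AF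

namespace Pool.Agent.H42.Unc

section

variable (K : Type) {F L : Type} [Field K] [NumberField K] [Field F] [NumberField F] [Field L]
  [NumberField L] [Algebra K F] [Algebra K L] [Algebra F L] [IsScalarTower K F L]

open Classical in
/-- The class function on `Gal(L/K)` induced from the function `f` on `Gal(L/F)`. -/
noncomputable def indG (f : Gal(L/F) → ℂ) (g : Gal(L/K)) : ℂ :=
  (Nat.card Gal(L/F) : ℂ)⁻¹ * ∑ x : Gal(L/K), ∑ σ : Gal(L/F),
    if σ.restrictScalars K = x⁻¹ * g * x then f σ else 0

theorem indF_eq_indG (χ : Gal(L/F) →* ℂˣ) (g : Gal(L/K)) :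
    indF K χ g = indG K (fun σ => ((χ σ : ℂˣ) : ℂ)) g := rfl

theorem indG_sum {ι : Type} [Fintype ι] (c : ι → ℂ) (f : ι → Gal(L/F) → ℂ) (g : Gal(L/K)) :
    indG K (fun σ => ∑ i, c i * f i σ) g = ∑ i, c i * indG K (f i) g := by
  classical
  unfold indG
  have h1 : ∀ (x : Gal(L/K)) (σ : Gal(L/F)), (if σ.restrictScalars K = x⁻¹ * g * x then
      ∑ i, c i * f i σ else 0) =
      ∑ i, c i * (if σ.restrictScalars K = x⁻¹ * g * x then f i σ else 0) := by
    intro x σ
    split_ifs with h
    · rfl
    · simp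
  calc (Nat.card Gal(L/F) : ℂ)⁻¹ * ∑ x : Gal(L/K), ∑ σ : Gal(L/F),
        (if σ.restrictScalars K = x⁻¹ * g * x then ∑ i, c i * f i σ else 0)
      = (Nat.card Gal(L/F) : ℂ)⁻¹ * ∑ x : Gal(L/K), ∑ i, c i * ∑ σ : Gal(L/F),
        (if σ.restrictScalars K = x⁻¹ * g * x then f i σ else 0) := by
        congr 1
        refine Finset.sum_congr rfl fun x _ => ?_
        rw [Finset.sum_congr rfl fun σ _ => h1 x σ, Finset.sum_comm]
        exact Finset.sum_congr rfl fun i _ => by rw [Finset.mul_sum]
    _ = (Nat.card Gal(L/F) : ℂ)⁻¹ * ∑ i, c i * ∑ x : Gal(L/K), ∑ σ : Gal(L/F),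
        (if σ.restrictScalars K = x⁻¹ * g * x then f i σ else 0) := by
        congr 1
        rw [Finset.sum_comm]
        exact Finset.sum_congr rfl fun i _ => by rw [Finset.mul_sum]
    _ = ∑ i, c i * ((Nat.card Gal(L/F) : ℂ)⁻¹ * ∑ x : Gal(L/K), ∑ σ : Gal(L/F),
        (if σ.restrictScalars K = x⁻¹ * g * x then f i σ else 0)) := by
        rw [Finset.mul_sum]
        exact Finset.sum_congr rfl fun i _ => by ring

/-- A monomial character of `Gal(L/K)` coming from a linear character of `Gal(L/F)`. -/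
theorem exists_mono [IsGalois K L] [IsGalois F L] (χ : Gal(L/F) →* ℂˣ) :
    ∃ (H : Subgroup Gal(L/K)) (ψ : H →* ℂˣ), ∀ g, indChar H ψ g = indF K χ g := by
  classical
  let r : Gal(L/F) →* Gal(L/K) :=
    { toFun := fun σ => σ.restrictScalars K
      map_one' := rfl
      map_mul' := fun _ _ => rfl }
  have hr : Function.Injective r := by
    intro a b h
    ext x
    exact DFunLike.congr_fun h x
  let e : Gal(L/F) ≃* r.range := MonoidHom.ofInjective hr
  have he : ∀ σ, ((e σ : r.range) : Gal(L/K)) = σ.restrictScalars K := fun σ => rfl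
  refine ⟨r.range, χ.comp e.symm.toMonoidHom, fun g => ?_⟩
  unfold indChar indF
  rw [← Nat.card_congr e.toEquiv]
  congr 1
  refine Finset.sum_congr rfl fun x _ => ?_
  by_cases h : x⁻¹ * g * x ∈ r.range
  · rw [dif_pos h, Finset.sum_eq_single (e.symm ⟨x⁻¹ * g * x, h⟩)]
    · rw [if_pos]
      · simp
      · rw [← he, MulEquiv.apply_symm_apply]
    · intro σ _ hσ
      rw [if_neg]
      intro h'
      apply hσ
      rw [← he] at h'
      rw [MulEquiv.eq_symm_apply]
      exact Subtype.ext h'
    · intro h'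
      exact absurd (Finset.mem_univ _) h'
  · rw [dif_neg h]
    symm
    refine Finset.sum_eq_zero fun σ _ => ?_
    rw [if_neg]
    intro h'
    apply h
    rw [← h', ← he]
    exact (e σ).2

end

section

variable (K : Type) {F M L : Type} [Field K] [NumberField K] [Field F] [NumberField F] [Field M]
  [NumberField M] [Field L] [NumberField L] [Algebra K F] [Algebra K M] [Algebra F M] [Algebra K L]
  [Algebra F L] [Algebra M L] [IsScalarTower K F L] [IsScalarTower K M L] [IsScalarTower F M L]

/-- Transitivity of induction. -/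
theorem indF_trans (χ : Gal(L/M) →* ℂˣ) (g : Gal(L/K)) :
    indG K (indF F χ) g = indF K χ g := by
  classical
  have hM : (Nat.card Gal(L/M) : ℂ) ≠ 0 := by exact_mod_cast Nat.card_pos.ne'
  have hF : (Nat.card Gal(L/F) : ℂ) ≠ 0 := by exact_mod_cast Nat.card_pos.ne'
  unfold indG indF
  have h1 : ∀ x : Gal(L/K), (∑ τ : Gal(L/F), if τ.restrictScalars K = x⁻¹ * g * x then
      (Nat.card Gal(L/M) : ℂ)⁻¹ * ∑ y : Gal(L/F), ∑ σ : Gal(L/M),
        (if σ.restrictScalars F = y⁻¹ * τ * y then ((χ σ : ℂˣ) : ℂ) else 0) else 0) =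
      (Nat.card Gal(L/M) : ℂ)⁻¹ * ∑ y : Gal(L/F), ∑ σ : Gal(L/M),
        if σ.restrictScalars K = (x * y.restrictScalars K)⁻¹ * g * (x * y.restrictScalars K) then
          ((χ σ : ℂˣ) : ℂ) else 0 := by
    intro x
    have h2 : ∀ τ : Gal(L/F), (if τ.restrictScalars K = x⁻¹ * g * x then
        (Nat.card Gal(L/M) : ℂ)⁻¹ * ∑ y : Gal(L/F), ∑ σ : Gal(L/M),
          (if σ.restrictScalars F = y⁻¹ * τ * y then ((χ σ : ℂˣ) : ℂ) else 0) else 0) =
        (Nat.card Gal(L/M) : ℂ)⁻¹ * ∑ y : Gal(L/F), ∑ σ : Gal(L/M),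
          if τ.restrictScalars K = x⁻¹ * g * x ∧ σ.restrictScalars F = y⁻¹ * τ * y then
            ((χ σ : ℂˣ) : ℂ) else 0 := by
      intro τ
      by_cases h : τ.restrictScalars K = x⁻¹ * g * x
      · simp only [h, true_and, if_true]
      · simp [h]
    rw [Finset.sum_congr rfl fun τ _ => h2 τ, ← Finset.mul_sum, Finset.sum_comm]
    congr 1
    refine Finset.sum_congr rfl fun y _ => ?_
    rw [Finset.sum_comm]
    refine Finset.sum_congr rfl fun σ _ => ?_
    rw [Finset.sum_eq_single (y * σ.restrictScalars F * y⁻¹)]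
    · have h3 : (y * σ.restrictScalars F * y⁻¹ : Gal(L/F)).restrictScalars K =
          y.restrictScalars K * σ.restrictScalars K * (y.restrictScalars K)⁻¹ := rfl
      rw [h3]
      have h4 : (y.restrictScalars K * σ.restrictScalars K * (y.restrictScalars K)⁻¹ =
          x⁻¹ * g * x ∧ σ.restrictScalars F = y⁻¹ * (y * σ.restrictScalars F * y⁻¹) * y) ↔
          σ.restrictScalars K =
            (x * y.restrictScalars K)⁻¹ * g * (x * y.restrictScalars K) := by
        constructor
        · rintro ⟨h, -⟩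
          have : σ.restrictScalars K = (y.restrictScalars K)⁻¹ *
              (y.restrictScalars K * σ.restrictScalars K * (y.restrictScalars K)⁻¹) *
              y.restrictScalars K := by group
          rw [this, h]
          group
        · intro h
          refine ⟨?_, by group⟩
          rw [h]
          group
      exact if_congr h4 rfl rfl
    · intro τ _ hτ
      rw [if_neg]
      rintro ⟨-, h⟩
      apply hτ
      rw [h]
      group
    · intro h
      exact absurd (Finset.mem_univ _) h
  rw [Finset.sum_congr rfl fun x _ => h1 x, ← Finset.mul_sum, Finset.sum_comm]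
  have h5 : ∀ y : Gal(L/F), (∑ x : Gal(L/K), ∑ σ : Gal(L/M),
      if σ.restrictScalars K = (x * y.restrictScalars K)⁻¹ * g * (x * y.restrictScalars K) then
        ((χ σ : ℂˣ) : ℂ) else 0) = ∑ x : Gal(L/K), ∑ σ : Gal(L/M),
      if σ.restrictScalars K = x⁻¹ * g * x then ((χ σ : ℂˣ) : ℂ) else 0 := by
    intro y
    exact Fintype.sum_equiv (Equiv.mulRight (y.restrictScalars K)) _ _ fun x => rfl
  rw [Finset.sum_congr rfl fun y _ => h5 y, Finset.sum_const, Finset.card_univ, nsmul_eq_mul,
    Nat.card_eq_fintype_card (α := Gal(L/F))]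
  rw [Nat.card_eq_fintype_card] at hF
  field_simp

end

section

variable (K : Type) {F L : Type} [Field K] [NumberField K] [Field F] [NumberField F] [Field L]
  [NumberField L] [Algebra K F] [Algebra K L] [Algebra F L] [IsScalarTower K F L] [IsGalois K L]
  [IsGalois F L]

/-- **Inductivity of Artin L-functions.** -/
theorem artinL_indG {V W : Type} [AddCommGroup V] [Module ℂ V] [FiniteDimensional ℂ V]
    [AddCommGroup W] [Module ℂ W] [FiniteDimensional ℂ W] (σ : Representation ℂ Gal(L/F) V)
    (ρ : Representation ℂ Gal(L/K) W) (h : ∀ g, ρ.character g = indG K σ.character g) {s : ℂ}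
    (hs : 1 < s.re) : artinL K L ρ s = artinL F L σ s := by
  classical
  obtain ⟨n, H, ψ, c, hb⟩ := brauer σ
  have h1 : artinL F L σ s = ∏ i, artinL F L (indRep (H i) (ψ i)) s ^ c i :=
    artinL_rel F L c (fun i => indSpace (H i) (ψ i)) (fun i => indRep (H i) (ψ i)) σ
      (fun g => by rw [hb g]; exact Finset.sum_congr rfl fun i _ => by rw [indRep_character]) hs
  have h2 : ∀ i, ∃ (H' : Subgroup Gal(L/K)) (ψ' : H' →* ℂˣ),
      (∀ g, indChar H' ψ' g = indG K (indChar (H i) (ψ i)) g) ∧
      artinL K L (indRep H' ψ') s = artinL F L (indRep (H i) (ψ i)) s := by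
    intro i
    obtain ⟨χ, hχ⟩ := exists_sub (H i) (ψ i)
    have inst : IsScalarTower K (IntermediateField.fixedField (H i)) L :=
      IsScalarTower.of_algebraMap_eq fun x => rfl
    obtain ⟨H', ψ', hψ⟩ := exists_mono K χ
    have hfun : indChar (H i) (ψ i) = indF F χ := funext hχ
    refine ⟨H', ψ', fun g => ?_, ?_⟩
    · rw [hψ g, hfun, indF_trans]
    · rw [artinL_ind χ (indRep H' ψ') (fun g => by rw [indRep_character]; exact hψ g) hs,
        artinL_ind χ (indRep (H i) (ψ i)) (fun g => by rw [indRep_character]; exact hχ g) hs]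
  choose H' ψ' hψ hL using h2
  have h3 : artinL K L ρ s = ∏ i, artinL K L (indRep (H' i) (ψ' i)) s ^ c i := by
    refine artinL_rel K L c (fun i => indSpace (H' i) (ψ' i)) (fun i => indRep (H' i) (ψ' i)) ρ
      (fun g => ?_) hs
    have h4 : σ.character = fun τ => ∑ i, (c i : ℂ) * indChar (H i) (ψ i) τ := funext hb
    rw [h g, h4, indG_sum K (fun i => (c i : ℂ)) (fun i => indChar (H i) (ψ i)) g]
    exact Finset.sum_congr rfl fun i _ => by rw [indRep_character, hψ i g]
  rw [h1, h3]
  exact Finset.prod_congr rfl fun i _ => by rw [hL i]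

end

section

/-- The permutation character of a finite group on the cosets of a subgroup. -/
theorem permRep_char {G : Type} [Group G] [Fintype G] (H : Subgroup G) (g : G) :
    (permRep G (G ⧸ H)).character g = Pool.Agent.H42.Hb.indFn H (fun _ => 1) g := by
  classical
  let _ : Fintype (G ⧸ H) := Fintype.ofFinite _
  have hH : (Nat.card H : ℂ) ≠ 0 := by exact_mod_cast Nat.card_pos.ne'
  rw [permRep_character]
  unfold Pool.Agent.H42.Hb.indFn
  have h1 : ∀ x : G, (if h : x⁻¹ * g * x ∈ H then (1 : ℂ) else 0) =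
      if g • (x : G ⧸ H) = (x : G ⧸ H) then 1 else 0 := by
    intro x
    have h2 : g • (x : G ⧸ H) = (x : G ⧸ H) ↔ x⁻¹ * g * x ∈ H := by
      have h3 : g • (x : G ⧸ H) = ((g * x : G) : G ⧸ H) := rfl
      rw [h3, eq_comm, QuotientGroup.eq, mul_assoc]
    by_cases h : x⁻¹ * g * x ∈ H
    · rw [dif_pos h, if_pos (h2.2 h)]
    · rw [dif_neg h, if_neg fun h' => h (h2.1 h')]
  rw [Finset.sum_congr rfl fun x _ => h1 x,
    ← Finset.sum_fiberwise Finset.univ (fun x : G => (x : G ⧸ H))]
  have h4 : ∀ q : G ⧸ H, (∑ x ∈ Finset.univ.filter (fun x : G => (x : G ⧸ H) = q),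
      if g • (x : G ⧸ H) = (x : G ⧸ H) then (1 : ℂ) else 0) =
      (Nat.card H : ℂ) * if g • q = q then 1 else 0 := by
    intro q
    obtain ⟨y, rfl⟩ := QuotientGroup.mk_surjective q
    rw [Finset.sum_congr rfl (g := fun _ => if g • (y : G ⧸ H) = (y : G ⧸ H) then (1 : ℂ) else 0)
      (fun x hx => by rw [(Finset.mem_filter.1 hx).2]), Finset.sum_const, nsmul_eq_mul]
    congr 2
    rw [Nat.card_eq_fintype_card]
    symm
    refine Finset.card_bij (s := Finset.univ) (fun (h : H) _ => y * (h : G)) ?_ ?_ ?_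
    · intro h _
      rw [Finset.mem_filter]
      refine ⟨Finset.mem_univ _, ?_⟩
      rw [eq_comm, QuotientGroup.eq]
      simp
    · intro a _ b _ hab
      exact Subtype.ext (mul_left_cancel hab)
    · intro x hx
      have h5 := (Finset.mem_filter.1 hx).2
      rw [eq_comm, QuotientGroup.eq] at h5
      exact ⟨⟨_, h5⟩, Finset.mem_univ _, by simp⟩
  rw [Finset.sum_congr rfl fun q _ => h4 q, ← Finset.mul_sum, ← mul_assoc, inv_mul_cancel₀ hH,
    one_mul, Finset.card_filter]
  push_cast
  rfl

end

section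

variable {K L : Type} [Field K] [NumberField K] [Field L] [NumberField L] [Algebra K L]
  [IsGalois K L]

/-- The Galois group of `L` over the fixed field of `H` is `H`. -/
noncomputable def fixEquiv (H : Subgroup Gal(L/K)) :
    Gal(L/IntermediateField.fixedField H) ≃* H :=
  (IntermediateField.fixingSubgroupEquiv (IntermediateField.fixedField H)).symm.trans
    (MulEquiv.subgroupCongr (IntermediateField.fixingSubgroup_fixedField H))

omit [IsGalois K L] in
theorem fixEquiv_coe (H : Subgroup Gal(L/K)) (σ : Gal(L/IntermediateField.fixedField H)) :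
    ((fixEquiv H σ : H) : Gal(L/K)) = σ.restrictScalars K := by
  ext x
  rfl

theorem indFn_eq_indG (H : Subgroup Gal(L/K)) (f : H → ℂ) (g : Gal(L/K)) :
    Pool.Agent.H42.Hb.indFn H f g = indG K (fun σ => f (fixEquiv H σ)) g := by
  classical
  unfold Pool.Agent.H42.Hb.indFn indG
  rw [Nat.card_congr (fixEquiv H).toEquiv]
  congr 1
  refine Finset.sum_congr rfl fun x _ => ?_
  by_cases h : x⁻¹ * g * x ∈ H
  · rw [dif_pos h, Finset.sum_eq_single ((fixEquiv H).symm ⟨x⁻¹ * g * x, h⟩)]
    · rw [if_pos]
      · simp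
      · rw [← fixEquiv_coe, MulEquiv.apply_symm_apply]
    · intro σ _ hσ
      rw [if_neg]
      intro h'
      apply hσ
      rw [← fixEquiv_coe] at h'
      rw [MulEquiv.eq_symm_apply]
      exact Subtype.ext h'
    · intro h'
      exact absurd (Finset.mem_univ _) h'
  · rw [dif_neg h]
    symm
    refine Finset.sum_eq_zero fun σ _ => ?_
    rw [if_neg]
    intro h'
    apply h
    rw [← h', ← fixEquiv_coe]
    exact (fixEquiv H σ).2

/-- The Artin L-function of the induced representation. -/
theorem artinL_indR {V : Type} [AddCommGroup V] [Module ℂ V] [FiniteDimensional ℂ V]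
    (H : Subgroup Gal(L/K)) (σ : Representation ℂ H V) {s : ℂ} (hs : 1 < s.re) :
    artinL K L (Pool.Agent.H42.Hb.indR H σ) s = artinL (IntermediateField.fixedField H) L
      (σ.comp (fixEquiv H).toMonoidHom : Representation ℂ _ V) s := by
  refine artinL_indG K (σ.comp (fixEquiv H).toMonoidHom : Representation ℂ _ V) _
    (fun g => ?_) hs
  rw [Pool.Agent.H42.Hb.indR_character, indFn_eq_indG]
  rfl

theorem isContinuation_indR_iff {V : Type} [AddCommGroup V] [Module ℂ V] [FiniteDimensional ℂ V]
    (H : Subgroup Gal(L/K)) (σ : Representation ℂ H V) (Λ : ℂ → ℂ) :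
    IsContinuation K L (Pool.Agent.H42.Hb.indR H σ) Λ ↔
      IsContinuation (IntermediateField.fixedField H) L
        (σ.comp (fixEquiv H).toMonoidHom : Representation ℂ _ V) Λ := by
  unfold IsContinuation
  refine and_congr Iff.rfl (forall_congr' fun s => forall_congr' fun hs => ?_)
  rw [artinL_indR H σ hs]

/-- The Artin L-function of the permutation representation on the cosets of `H` is the Dedekind zeta
function of the fixed field of `H`. -/
theorem artinL_permRep (H : Subgroup Gal(L/K)) {s : ℂ} (hs : 1 < s.re) :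
    artinL K L (permRep Gal(L/K) (Gal(L/K) ⧸ H)) s =
      dedekindZeta (IntermediateField.fixedField H) s := by
  rw [artinL_ind (F := IntermediateField.fixedField H) 1
    (permRep Gal(L/K) (Gal(L/K) ⧸ H)) (fun g => ?_) hs, artinL_one hs,
    Pool.Agent.H31.CF.tsum_absNorm_eq _ hs]
  rw [permRep_char, indFn_eq_indG, indF_eq_indG]
  rfl

theorem isContinuation_permRep_iff (H : Subgroup Gal(L/K)) (Z : ℂ → ℂ) :
    IsContinuation K L (permRep Gal(L/K) (Gal(L/K) ⧸ H)) Z ↔
      Pool.Agent.H31.CF.IsZetaContinuation (IntermediateField.fixedField H) Z := by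
  unfold IsContinuation Pool.Agent.H31.CF.IsZetaContinuation
  refine and_congr Iff.rfl (forall_congr' fun s => forall_congr' fun hs => ?_)
  rw [artinL_permRep H hs]

theorem isContinuation_permRep_fixing (E : IntermediateField K L) (Z : ℂ → ℂ) :
    IsContinuation K L (permRep Gal(L/K) (Gal(L/K) ⧸ E.fixingSubgroup)) Z ↔
      Pool.Agent.H31.CF.IsZetaContinuation E Z := by
  rw [isContinuation_permRep_iff, IsGalois.fixedField_fixingSubgroup]

end

end Pool.Agent.H42.Unc
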